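import Pool.Agent.Helper28.T3.StA

/-!
# Project T3, module RPP: roots of `x² + x + e` modulo prime powers
-/

set_option autoImplicit false

namespace Pool.Agent.Helper69.T3

open Pool.Agent.Helper28.T3

/-- Odd primes: completing the square. -/
private theorem rr_odd_RPP (D : ℕ) (e : ℤ) (p : ℕ) (he : 4 * e = (D : ℤ) + 1) [hp : Fact p.Prime]
    (h2 : p ≠ 2) : (rr e p : ℤ) = legendreSym p (-(D : ℤ)) + 1 := by
  have h20 : (2 : ZMod p) ≠ 0 := by
    intro h
    have h3 : ((2 : ℕ) : ZMod p) = 0 := by exact_mod_cast h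
    rw [ZMod.natCast_eq_zero_iff] at h3
    have h4 := (Nat.prime_dvd_prime_iff_eq hp.out Nat.prime_two).1 h3
    exact h2 h4
  have hee : (4 : ZMod p) * (e : ZMod p) = (D : ZMod p) + 1 := by
    have h := congrArg (Int.cast : ℤ → ZMod p) he
    push_cast at h
    exact h
  have h40 : (4 : ZMod p) ≠ 0 := by
    have h : (4 : ZMod p) = 2 * 2 := by norm_num
    rw [h]
    exact mul_ne_zero h20 h20
  have key : ∀ x : ZMod p, (2 * x + 1) ^ 2 = -(D : ZMod p) ↔ x ^ 2 + x + (e : ZMod p) = 0 := by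
    intro x
    have h : (4 : ZMod p) * (x ^ 2 + x + (e : ZMod p)) = (2 * x + 1) ^ 2 + (D : ZMod p) := by
      have h1 : (4 : ZMod p) * (x ^ 2 + x + (e : ZMod p)) =
          4 * x ^ 2 + 4 * x + 4 * (e : ZMod p) := by ring
      rw [h1, hee]
      ring
    constructor
    · intro h1
      rw [h1, neg_add_cancel] at h
      exact (mul_eq_zero.1 h).resolve_left h40
    · intro h1
      rw [h1, mul_zero] at h
      exact eq_neg_of_add_eq_zero_left h.symm
  have key2 : ∀ x : ℕ, ((p : ℤ) ∣ (x : ℤ) ^ 2 + x + e) ↔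
      (x : ZMod p) ^ 2 + (x : ZMod p) + (e : ZMod p) = 0 := by
    intro x
    rw [← ZMod.intCast_zmod_eq_zero_iff_dvd]
    push_cast
    exact Iff.rfl
  rw [← legendreSym.card_sqrts p h2 (-(D : ℤ))]
  congr 1
  unfold rr
  refine Finset.card_bij (fun x _ => 2 * (x : ZMod p) + 1) ?_ ?_ ?_
  · intro x hx
    rw [Finset.mem_filter, Finset.mem_range, key2] at hx
    rw [Set.mem_toFinset, Set.mem_setOf_eq]
    push_cast
    exact (key _).2 hx.2
  · intro x hx y hy hxy
    rw [Finset.mem_filter, Finset.mem_range] at hx hy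
    have h1 : (x : ZMod p) = (y : ZMod p) := mul_left_cancel₀ h20 (add_right_cancel hxy)
    rw [ZMod.natCast_eq_natCast_iff] at h1
    exact Nat.ModEq.eq_of_lt_of_lt h1 hx.1 hy.1
  · intro y hy
    rw [Set.mem_toFinset, Set.mem_setOf_eq] at hy
    push_cast at hy
    have hval : (((y - 1) / 2 : ZMod p).val : ZMod p) = (y - 1) / 2 := by
      rw [ZMod.natCast_val, ZMod.cast_id', id]
    have h3 : 2 * ((y - 1) / 2) + 1 = y := by
      field_simp
      ring
    refine ⟨((y - 1) / 2 : ZMod p).val, ?_, ?_⟩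
    · rw [Finset.mem_filter, Finset.mem_range, key2, hval]
      refine ⟨ZMod.val_lt _, ?_⟩
      rw [← key, h3]
      exact hy
    · show 2 * (((y - 1) / 2 : ZMod p).val : ZMod p) + 1 = y
      rw [hval]
      exact h3

/-- The quadratic character. -/
private theorem sym_RPP (D p : ℕ) (hD : D % 4 = 3) (hp : p.Prime) (h2 : p ≠ 2) :
    jacobiSym (-(D : ℤ)) p = jacobiSym (p : ℤ) D := by
  have hpo : Odd p := hp.odd_of_ne_two h2
  have hDo : Odd D := Nat.odd_iff.2 (by omega)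
  have h1 : (-(D : ℤ)) = (-1) * (D : ℤ) := by ring
  rw [h1, jacobiSym.mul_left, jacobiSym.at_neg_one hpo]
  have h3 : p % 4 = 1 ∨ p % 4 = 3 := by
    have := Nat.odd_iff.1 hpo
    omega
  rcases h3 with h3 | h3
  · rw [ZMod.χ₄_nat_one_mod_four h3, one_mul,
      jacobiSym.quadratic_reciprocity_one_mod_four h3 hDo]
  · rw [ZMod.χ₄_nat_three_mod_four h3, jacobiSym.quadratic_reciprocity_three_mod_four h3 hD]
    ring

/-- The prime `2`. -/
private theorem rr_two_RPP (D : ℕ) (e : ℤ) (he : 4 * e = (D : ℤ) + 1) :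
    (rr e 2 : ℤ) = 1 + jacobiSym ((2 : ℕ) : ℤ) D := by
  have hDo : Odd D := by
    rw [Nat.odd_iff]
    omega
  have h2 : (((2 : ℕ) : ℤ)) = 2 := rfl
  rw [h2, jacobiSym.at_two hDo, ZMod.χ₈_nat_eq_if_mod_eight]
  have hD2 : D % 2 ≠ 0 := by omega
  rw [if_neg hD2]
  rcases Int.even_or_odd e with h | h
  · obtain ⟨t, ht⟩ := h
    have h8 : D % 8 = 1 ∨ D % 8 = 7 := by omega
    rw [if_pos h8]
    have h3 : rr e 2 = 2 := by
      unfold rr
      have h4 : (Finset.range 2).filter (fun x : ℕ => ((2 : ℕ) : ℤ) ∣ (x : ℤ) ^ 2 + x + e) =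
          Finset.range 2 := by
        apply Finset.filter_true_of_mem
        intro x hx
        rw [Finset.mem_range] at hx
        interval_cases x
        · exact ⟨t, by
            rw [ht]
            push_cast
            ring⟩
        · exact ⟨t + 1, by
            rw [ht]
            push_cast
            ring⟩
      rw [h4, Finset.card_range]
    rw [h3]
    norm_num
  · obtain ⟨t, ht⟩ := h
    have h8 : ¬ (D % 8 = 1 ∨ D % 8 = 7) := by omega
    rw [if_neg h8]
    have h3 : rr e 2 = 0 := by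
      unfold rr
      rw [Finset.card_eq_zero]
      apply Finset.filter_false_of_mem
      intro x hx
      rw [Finset.mem_range] at hx
      interval_cases x
      · rintro ⟨s, hs⟩
        push_cast at hs
        omega
      · rintro ⟨s, hs⟩
        push_cast at hs
        omega
    rw [h3]
    norm_num

/-- The value for primes. -/
private theorem rr_prime_RPP (D : ℕ) (e : ℤ) (p : ℕ) (he : 4 * e = (D : ℤ) + 1) (hp : p.Prime) :
    (rr e p : ℤ) = 1 + jacobiSym (p : ℤ) D := by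
  by_cases h2 : p = 2
  · subst h2
    exact rr_two_RPP D e he
  · haveI : Fact p.Prime := ⟨hp⟩
    rw [rr_odd_RPP D e p he h2, jacobiSym.legendreSym.to_jacobiSym, sym_RPP D p (by omega) hp h2]
    ring

/-- The Hensel step. -/
private theorem rr_step_RPP (D : ℕ) (e : ℤ) (p j : ℕ) (he : 4 * e = (D : ℤ) + 1) (hp : p.Prime)
    (hj : 1 ≤ j) (hpD : ¬ p ∣ D) : rr e (p ^ (j + 1)) = rr e (p ^ j) := by
  have hp0 : 0 < p := hp.pos
  have hpj : 0 < p ^ j := Nat.pos_of_ne_zero (pow_ne_zero _ hp0.ne')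
  -- `2x+1` is prime to `p` at a root
  have hunit : ∀ x : ℤ, (p : ℤ) ∣ x ^ 2 + x + e → IsCoprime (2 * x + 1) (p : ℤ) := by
    intro x hx
    rw [isCoprime_comm, Prime.coprime_iff_not_dvd (Nat.prime_iff_prime_int.1 hp)]
    intro h
    apply hpD
    have h1 : (D : ℤ) = 4 * (x ^ 2 + x + e) - (2 * x + 1) * (2 * x + 1) := by
      linear_combination (-1 : ℤ) * he
    have h2 : (p : ℤ) ∣ (D : ℤ) := by
      rw [h1]
      exact dvd_sub (Dvd.dvd.mul_left hx 4) (Dvd.dvd.mul_left h _)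
    exact_mod_cast h2
  have hpow : (((p ^ (j + 1) : ℕ)) : ℤ) = ((p ^ j : ℕ) : ℤ) * (p : ℤ) := by
    push_cast
    ring
  have hdvdj : (((p ^ j : ℕ)) : ℤ) ∣ ((p ^ (j + 1) : ℕ) : ℤ) := by
    rw [hpow]
    exact dvd_mul_right _ _
  have hpdj : (p : ℤ) ∣ ((p ^ j : ℕ) : ℤ) := by
    push_cast
    exact dvd_pow_self _ (by omega)
  unfold rr
  refine Finset.card_bij (fun x _ => x % p ^ j) ?_ ?_ ?_
  · intro x hx
    rw [Finset.mem_filter, Finset.mem_range] at hx ⊢
    refine ⟨Nat.mod_lt _ hpj, ?_⟩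
    have h1 : (((p ^ j : ℕ)) : ℤ) ∣ (x : ℤ) ^ 2 + x + e := hdvdj.trans hx.2
    have h2 : (x : ℤ) = ((p ^ j : ℕ) : ℤ) * ((x / p ^ j : ℕ) : ℤ) + ((x % p ^ j : ℕ) : ℤ) := by
      exact_mod_cast (Nat.div_add_mod x (p ^ j)).symm
    generalize ((x % p ^ j : ℕ) : ℤ) = y at h2 ⊢
    generalize ((x / p ^ j : ℕ) : ℤ) = t at h2
    generalize ((p ^ j : ℕ) : ℤ) = q at h1 h2 ⊢
    have h3 : y ^ 2 + y + e = ((x : ℤ) ^ 2 + x + e) - q * (t * (q * t + 2 * y + 1)) := by
      rw [h2]
      ring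
    rw [h3]
    exact dvd_sub h1 (dvd_mul_right _ _)
  · intro x hx y hy hxy
    rw [Finset.mem_filter, Finset.mem_range] at hx hy
    have hxy' : x % p ^ j = y % p ^ j := hxy
    have h1 : (((p ^ j : ℕ)) : ℤ) ∣ (y : ℤ) - (x : ℤ) :=
      (Nat.modEq_iff_dvd).1 (show x ≡ y [MOD p ^ j] from hxy')
    have h2 : (((p ^ (j + 1) : ℕ)) : ℤ) ∣ ((y : ℤ) - x) * (x + y + 1) := by
      have h3 : ((y : ℤ) - x) * (x + y + 1) =
          ((y : ℤ) ^ 2 + y + e) - ((x : ℤ) ^ 2 + x + e) := by ring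
      rw [h3]
      exact dvd_sub hy.2 hx.2
    have h4 : IsCoprime (2 * (x : ℤ) + 1) (p : ℤ) := hunit _ ((hpdj.trans hdvdj).trans hx.2)
    have h5 : IsCoprime ((x : ℤ) + y + 1) (p : ℤ) := by
      obtain ⟨c, hc⟩ := hpdj.trans h1
      have h6 : (x : ℤ) + y + 1 = (2 * (x : ℤ) + 1) + (p : ℤ) * c := by
        rw [← hc]
        ring
      rw [h6]
      exact h4.add_mul_left_left c
    have h7 : (((p ^ (j + 1) : ℕ)) : ℤ) ∣ (y : ℤ) - x := by
      have h8 : IsCoprime (((p ^ (j + 1) : ℕ)) : ℤ) ((x : ℤ) + y + 1) := by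
        push_cast
        exact h5.symm.pow_left
      exact h8.dvd_of_dvd_mul_right h2
    have h9 : x ≡ y [MOD p ^ (j + 1)] := (Nat.modEq_iff_dvd).2 h7
    exact Nat.ModEq.eq_of_lt_of_lt h9 hx.1 hy.1
  · intro y hy
    rw [Finset.mem_filter, Finset.mem_range] at hy
    obtain ⟨hy1, u, hu⟩ := hy
    have h4 : IsCoprime (2 * (y : ℤ) + 1) (p : ℤ) := hunit _ (hpdj.trans ⟨u, hu⟩)
    obtain ⟨a, b, hab⟩ := h4
    -- `t ≡ - u a` modulo `p`
    obtain ⟨t, htlt, ht⟩ : ∃ t : ℕ, t < p ∧ (p : ℤ) ∣ (t : ℤ) + u * a := by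
      have hpz : (0 : ℤ) < (p : ℤ) := by exact_mod_cast hp0
      have h5 : 0 ≤ (-(u * a)) % (p : ℤ) := Int.emod_nonneg _ hpz.ne'
      have h6 : (-(u * a)) % (p : ℤ) < p := Int.emod_lt_of_pos _ hpz
      obtain ⟨t, ht⟩ := Int.eq_ofNat_of_zero_le h5
      refine ⟨t, ?_, ?_⟩
      · have h7 : ((t : ℕ) : ℤ) < (p : ℤ) := by
          rw [← ht]
          exact h6
        exact_mod_cast h7
      · have h8 : (t : ℤ) + u * a = -((-(u * a)) - (-(u * a)) % (p : ℤ)) := by
          rw [ht]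
          ring
        rw [h8]
        exact (Int.dvd_self_sub_emod).neg_right
    refine ⟨y + p ^ j * t, ?_, ?_⟩
    · rw [Finset.mem_filter, Finset.mem_range]
      constructor
      · calc y + p ^ j * t < p ^ j + p ^ j * t := by omega
          _ = p ^ j * (t + 1) := by ring
          _ ≤ p ^ j * p := Nat.mul_le_mul_left _ htlt
          _ = p ^ (j + 1) := by rw [pow_succ]
      · obtain ⟨c, hc⟩ := ht
        obtain ⟨d, hd⟩ := hpdj
        have h9 : (((y + p ^ j * t : ℕ)) : ℤ) = (y : ℤ) + ((p ^ j : ℕ) : ℤ) * t := by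
          push_cast
          ring
        rw [h9, hpow]
        generalize ((p ^ j : ℕ) : ℤ) = q at hu hd ⊢
        have h10 : ((y : ℤ) + q * t) ^ 2 + ((y : ℤ) + q * t) + e =
            q * (u + (2 * (y : ℤ) + 1) * t + q * t ^ 2) := by
          linear_combination hu
        rw [h10]
        apply mul_dvd_mul_left
        have h11 : u + (2 * (y : ℤ) + 1) * t + q * t ^ 2 =
            (p : ℤ) * (u * b + (2 * (y : ℤ) + 1) * c + d * t ^ 2) := by
          linear_combination (-u) * hab + (2 * (y : ℤ) + 1) * hc + (t : ℤ) ^ 2 * hd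
        rw [h11]
        exact dvd_mul_right _ _
    · show (y + p ^ j * t) % p ^ j = y
      rw [Nat.add_mul_mod_self_left]
      exact Nat.mod_eq_of_lt hy1

/-- RPP. -/
theorem hRPP : StRPP := by
  intro D e p j hD he hp hj
  constructor
  · intro hpD
    have h : rr e (p ^ j) = rr e p := by
      induction j, hj using Nat.le_induction with
      | base => rw [pow_one]
      | succ j hj ih => rw [rr_step_RPP D e p j he hp hj hpD, ih]
    rw [h]
    exact rr_prime_RPP D e p he hp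
  · intro hpD
    have hp2 : p ≠ 2 := by
      rintro rfl
      omega
    have : Fact p.Prime := ⟨hp⟩
    constructor
    · have h1 := rr_odd_RPP D e p he hp2
      have h2 : legendreSym p (-(D : ℤ)) = 0 := by
        rw [legendreSym.eq_zero_iff]
        push_cast
        rw [neg_eq_zero, ZMod.natCast_eq_zero_iff]
        exact hpD
      rw [h2] at h1
      have h3 : (rr e p : ℤ) = 1 := by
        rw [h1]
        norm_num
      exact_mod_cast h3
    · intro hj2
      unfold rr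
      rw [Finset.card_eq_zero]
      apply Finset.filter_false_of_mem
      intro x _ hx
      have hpz : Prime (p : ℤ) := Nat.prime_iff_prime_int.1 hp
      have h1 : ((p : ℤ) ^ 2) ∣ (x : ℤ) ^ 2 + x + e := by
        refine dvd_trans ?_ hx
        push_cast
        exact pow_dvd_pow _ hj2
      have h2 : (2 * (x : ℤ) + 1) ^ 2 = 4 * ((x : ℤ) ^ 2 + x + e) - (D : ℤ) := by
        linear_combination (-1 : ℤ) * he
      have h3 : (p : ℤ) ∣ (2 * (x : ℤ) + 1) ^ 2 := by
        rw [h2]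
        exact dvd_sub (Dvd.dvd.mul_left ((Dvd.intro_left ((p : ℤ) ^ 1) (by ring)).trans h1) 4)
          (by exact_mod_cast hpD)
      have h4 : (p : ℤ) ∣ 2 * (x : ℤ) + 1 := hpz.dvd_of_dvd_pow h3
      have h5 : (p : ℤ) ^ 2 ∣ (2 * (x : ℤ) + 1) ^ 2 := pow_dvd_pow_of_dvd h4 2
      have h6 : (p : ℤ) ^ 2 ∣ (D : ℤ) := by
        have h7 : (D : ℤ) = 4 * ((x : ℤ) ^ 2 + x + e) - (2 * (x : ℤ) + 1) ^ 2 := by
          rw [h2]
          ring
        rw [h7]
        exact dvd_sub (Dvd.dvd.mul_left h1 4) h5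
      have h8 : p * p ∣ D := by
        have h9 : p ^ 2 ∣ D := by exact_mod_cast h6
        rwa [pow_two] at h9
      have h10 := hD p h8
      rw [Nat.isUnit_iff] at h10
      exact hp.one_lt.ne' h10

end Pool.Agent.Helper69.T3
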