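import Pool.Agent.Helper14.T3.StL

/-!
# Project T3, module Eedge: edges of the explicit symbol
-/

set_option autoImplicit false

namespace Pool.Agent.Helper69.T3

open Pool.Agent.Helper14.T3 Pool.Agent.Helper14.W3 Pool.Agent.Helper78.W3

private theorem three_Eed : (3 : ZMod 3) = 0 := by decide

private theorem IZ_neg_Eed (u v : ℤ) : IZ (-u) (-v) = IZ u v := by
  unfold IZ
  rw [Int.natAbs_neg, Int.sign_neg, neg_mul_neg]

private theorem th_neg_Eed (t : ℤ) : th (-t) = th t := by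
  unfold th
  rw [neg_sq]

private theorem div_neg_Eed (p : ℤ) (h : (3 : ℤ) ∣ p) : (-p) / 3 = -(p / 3) := by
  obtain ⟨k, rfl⟩ := h
  omega

private theorem even_Eed (al A B C u0 u1 u2 : ZMod 3) (p q : ℤ) :
    E3 al A B C u0 u1 u2 (-p) (-q) = E3 al A B C u0 u1 u2 p q := by
  unfold E3
  have hp : ((3 : ℤ) ∣ -p) ↔ (3 : ℤ) ∣ p := dvd_neg
  have hq : ((3 : ℤ) ∣ -q) ↔ (3 : ℤ) ∣ q := dvd_neg
  have hpq : ((3 : ℤ) ∣ -p - -q) ↔ (3 : ℤ) ∣ p - q := by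
    have h : -p - -q = -(p - q) := by ring
    rw [h, dvd_neg]
  by_cases h1 : (3 : ℤ) ∣ p
  · rw [if_pos (hp.2 h1), if_pos h1, div_neg_Eed p h1, IZ_neg_Eed, IZ_neg_Eed, th_neg_Eed]
    push_cast
    ring
  · rw [if_neg (fun h => h1 (hp.1 h)), if_neg h1]
    by_cases h2 : (3 : ℤ) ∣ q
    · rw [if_pos (hq.2 h2), if_pos h2, div_neg_Eed q h2, IZ_neg_Eed, IZ_neg_Eed, th_neg_Eed]
      push_cast
      ring
    · rw [if_neg (fun h => h2 (hq.1 h)), if_neg h2]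
      by_cases h3 : (3 : ℤ) ∣ p - q
      · rw [if_pos (hpq.2 h3), if_pos h3, IZ_neg_Eed, IZ_neg_Eed, th_neg_Eed, th_neg_Eed,
          neg_mul_neg]
      · rw [if_neg (fun h => h3 (hpq.1 h)), if_neg h3, IZ_neg_Eed, IZ_neg_Eed, th_neg_Eed,
          th_neg_Eed, neg_mul_neg]

private theorem inf_Eed (al A B C u0 u1 u2 : ZMod 3) (a c : ℤ) (ha : ¬ (3 : ℤ) ∣ a) :
    E3 al A B C u0 u1 u2 a (3 * c) =
      (C + B) * ((IZ c a : ZMod 3) + a * (c : ZMod 3) * th a) +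
      (A + B) * (IZ (3 * c) a : ZMod 3) + (2 * u1 + u2 + 2 * A + C) * a * (c : ZMod 3) := by
  have h1 : (3 * c) / 3 = c := Int.mul_ediv_cancel_left c (by norm_num)
  unfold E3
  rw [if_neg ha, if_pos (dvd_mul_right 3 c), h1]

private theorem zero_Eed (al A B C u0 u1 u2 : ZMod 3) (b d : ℤ) :
    E3 al A B C u0 u1 u2 (3 * b) d =
      -al * (b : ZMod 3) * d + (C + B) * (IZ (3 * b) d : ZMod 3) +
      (A + B) * ((IZ b d : ZMod 3) + d * (b : ZMod 3) * th d) := by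
  have h1 : (3 * b) / 3 = b := Int.mul_ediv_cancel_left b (by norm_num)
  unfold E3
  rw [if_pos (dvd_mul_right 3 b), h1]

private theorem one_Eed (al A B C u0 u1 u2 : ZMod 3) (P Q w : ℤ) (hP : ¬ (3 : ℤ) ∣ P)
    (hQ : ¬ (3 : ℤ) ∣ Q) (hPQ : (3 : ℤ) ∣ P - Q) (hw : P * Q - 1 = 3 * w) :
    E3 al A B C u0 u1 u2 P Q =
    -u0 + (C + B) * ((IZ P Q : ZMod 3) + th Q) + (A + B) * ((IZ Q P : ZMod 3) + th P) +
      B * (w : ZMod 3) ^ 2 - B * (w : ZMod 3) - (u1 + A) * (w : ZMod 3) := by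
  have h1 : (P * Q - 1) / 3 = w := by
    rw [hw]
    exact Int.mul_ediv_cancel_left w (by norm_num)
  unfold E3
  rw [if_neg hP, if_neg hQ, if_pos hPQ, h1]

private theorem two_Eed (al A B C u0 u1 u2 : ZMod 3) (P Q w : ℤ) (hP : ¬ (3 : ℤ) ∣ P)
    (hQ : ¬ (3 : ℤ) ∣ Q) (hPQ : ¬ (3 : ℤ) ∣ P - Q) (hw : P * Q + 1 = 3 * w) :
    E3 al A B C u0 u1 u2 P Q =
    u0 + (C + B) * ((IZ P Q : ZMod 3) - th Q) + (A + B) * ((IZ Q P : ZMod 3) - th P) -
      B * (w : ZMod 3) ^ 2 - B * (w : ZMod 3) - (u1 + A) * (w : ZMod 3) := by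
  have h1 : (P * Q + 1) / 3 = w := by
    rw [hw]
    exact Int.mul_ediv_cancel_left w (by norm_num)
  unfold E3
  rw [if_neg hP, if_neg hQ, if_neg hPQ, h1]

/-- EEDGE. -/
theorem hEedge (hSedge : Sedge) : Eedge := by
  intro al A B C u0 u1 u2
  refine ⟨even_Eed al A B C u0 u1 u2, ?_⟩
  intro a b c d h
  have h3 := three_Eed
  have hcast : ∀ t : ℤ, (3 : ℤ) ∣ t ↔ (t : ZMod 3) = 0 := by
    intro t
    rw [ZMod.intCast_zmod_eq_zero_iff_dvd]
    exact Iff.rfl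
  have hadz : (a : ZMod 3) * (d : ZMod 3) = 1 := by
    have h1 := congrArg (Int.cast : ℤ → ZMod 3) h
    push_cast at h1
    linear_combination h1 + (3 * (b : ZMod 3) * c) * h3
  have hgen : ∀ x y : ZMod 3, x * y = 1 → y = x ∧ x ≠ 0 := by decide
  obtain ⟨hda, ha0⟩ := hgen _ _ hadz
  have ha : ¬ (3 : ℤ) ∣ a := by
    rw [hcast]
    exact ha0
  have hgen2 : ∀ x : ZMod 3, x ≠ 0 → -x - x ≠ 0 := by decide
  have hP : ¬ (3 : ℤ) ∣ a + 3 * b := by
    rw [hcast]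
    push_cast
    rw [h3, zero_mul, add_zero]
    exact ha0
  have hQ : ¬ (3 : ℤ) ∣ 3 * c + d := by
    rw [hcast]
    push_cast
    rw [h3, zero_mul, zero_add, hda]
    exact ha0
  have hPQ : (3 : ℤ) ∣ (a + 3 * b) - (3 * c + d) := by
    rw [hcast]
    push_cast
    rw [h3, hda]
    ring
  have hP' : ¬ (3 : ℤ) ∣ 3 * b - a := by
    rw [hcast]
    push_cast
    rw [h3, zero_mul, zero_sub, neg_eq_zero]
    exact ha0
  have hQ' : ¬ (3 : ℤ) ∣ d - 3 * c := by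
    rw [hcast]
    push_cast
    rw [h3, zero_mul, sub_zero, hda]
    exact ha0
  have hPQ' : ¬ (3 : ℤ) ∣ (3 * b - a) - (d - 3 * c) := by
    rw [hcast]
    push_cast
    rw [h3, hda, zero_mul, zero_mul, zero_sub, sub_zero]
    exact hgen2 _ ha0
  have hw : (a + 3 * b) * (3 * c + d) - 1 = 3 * (a * c + b * d + 6 * (b * c)) := by
    linear_combination h
  have hw' : (3 * b - a) * (d - 3 * c) + 1 = 3 * (a * c + b * d - 6 * (b * c)) := by
    linear_combination (-1 : ℤ) * h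
  have h6 : (6 : ZMod 3) = 0 := by decide
  obtain ⟨s1, s2, s3⟩ := hSedge a b c d h
  obtain ⟨t1, t2, t3⟩ := hSedge d c b a (by linear_combination h)
  have e1 : d + 3 * c = 3 * c + d := by ring
  have e2 : 3 * b + a = a + 3 * b := by ring
  have e3 : 3 * c - d = -(d - 3 * c) := by ring
  have e4 : a - 3 * b = -(3 * b - a) := by ring
  rw [e1, e2] at t2
  rw [e3, e4, IZ_neg_Eed, th_neg_Eed] at t3
  rw [hda] at t1 t2 t3
  refine ⟨?_, ?_, ?_⟩
  · rw [inf_Eed _ _ _ _ _ _ _ _ _ ha, zero_Eed, hda]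
    linear_combination (C + B) * s1 - (A + B) * t1
  · rw [inf_Eed _ _ _ _ _ _ _ _ _ ha, one_Eed _ _ _ _ _ _ _ _ _ _ hP hQ hPQ hw]
    push_cast
    rw [h6, hda]
    linear_combination (C + B) * s2 + (A + B) * (t2 - t1) +
      (u1 * ((a : ZMod 3) * c) + A * ((a : ZMod 3) * c) -
        B * ((a : ZMod 3) * b) * ((a : ZMod 3) * c)) * h3
  · rw [inf_Eed _ _ _ _ _ _ _ _ _ ha, two_Eed _ _ _ _ _ _ _ _ _ _ hP' hQ' hPQ' hw']
    push_cast
    rw [h6, hda]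
    linear_combination (C + B) * s3 + (A + B) * (t3 - t1) +
      (u1 * ((a : ZMod 3) * c) + A * ((a : ZMod 3) * c) +
        B * ((a : ZMod 3) * b) * ((a : ZMod 3) * c)) * h3

end Pool.Agent.Helper69.T3
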